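import Pool.Agent.N659.HB.Stm8

/-!
# Integrals over one site, uniform law (part U1 of project SD, helper659; proof by helper491)
-/

set_option autoImplicit false

namespace Pool.Agent.N491.SD.U1

open MeasureTheory Filter Set Pool.Agent.N659.HB
open scoped Topology ENNReal


theorem integral_unif {E : Type*} [NormedAddCommGroup E] [NormedSpace ℝ E] {w : ℝ} (hw : 0 < w)
    (f : ℝ → E) : ∫ t, f t ∂(unif w) = (1 / (2 * w)) • ∫ t in Icc (-w) w, f t := by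
  unfold unif
  rw [integral_smul_measure, ENNReal.toReal_ofReal (by positivity)]

theorem integrable_unif {E : Type*} [NormedAddCommGroup E] {w : ℝ}
    {f : ℝ → E} (h : IntegrableOn f (Icc (-w) w)) : Integrable f (unif w) := by
  unfold unif
  exact Integrable.smul_measure h ENNReal.ofReal_ne_top

theorem unif_ae (w : ℝ) : ∀ᵐ t ∂(unif w), t ∈ Icc (-w) w := by
  unfold unif
  exact Measure.ae_smul_measure (ae_restrict_mem measurableSet_Icc) _

theorem unif_prob {w : ℝ} (hw : 0 < w) : IsProbabilityMeasure (unif w) := by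
  constructor
  unfold unif
  rw [Measure.smul_apply, Measure.restrict_apply_univ, Real.volume_Icc, smul_eq_mul,
    ← ENNReal.ofReal_mul (by positivity)]
  have : 1 / (2 * w) * (w - -w) = 1 := by field_simp; ring
  rw [this, ENNReal.ofReal_one]

/-! ### singular integrals -/

theorem sing_zero_pos {s : ℝ} (hs1 : s < 1) (R : ℝ) (hR : 0 ≤ R) :
    IntervalIntegrable (fun u : ℝ => |u| ^ (-s)) volume 0 R := by
  have h := intervalIntegral.intervalIntegrable_rpow' (a := 0) (b := R) (r := -s) (by linarith)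
  refine h.congr ?_
  intro u hu
  rw [uIoc_of_le hR] at hu
  simp only
  rw [abs_of_pos hu.1]

theorem sing_zero {s : ℝ} (hs1 : s < 1) (R : ℝ) (hR : 0 ≤ R) :
    IntervalIntegrable (fun u : ℝ => |u| ^ (-s)) volume (-R) R := by
  have h1 := sing_zero_pos hs1 R hR
  have h2 : IntervalIntegrable (fun u : ℝ => |u| ^ (-s)) volume (-R) 0 := by
    have := (IntervalIntegrable.iff_comp_neg).1 h1
    simp only [abs_neg, neg_zero] at this
    exact this.symm
  exact h2.trans h1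

theorem sing_int {s : ℝ} (hs1 : s < 1) (x a b : ℝ) :
    IntervalIntegrable (fun t : ℝ => |t - x| ^ (-s)) volume a b := by
  have h : IntervalIntegrable (fun u : ℝ => |u| ^ (-s)) volume (a - x) (b - x) := by
    have hR : 0 ≤ |a - x| + |b - x| := by positivity
    refine (sing_zero hs1 (|a - x| + |b - x|) hR).mono_set ?_
    intro u hu
    rw [mem_uIcc] at hu
    rw [uIcc_of_le (by linarith)]
    have h1 := abs_nonneg (a - x)
    have h2 := abs_nonneg (b - x)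
    have h3 := neg_abs_le (a - x)
    have h4 := neg_abs_le (b - x)
    have h5 := le_abs_self (a - x)
    have h6 := le_abs_self (b - x)
    rcases hu with ⟨h7, h8⟩ | ⟨h7, h8⟩
    · exact ⟨by linarith, by linarith⟩
    · exact ⟨by linarith, by linarith⟩
  have := h.comp_sub_right x
  simpa using this

theorem sing_one {s : ℝ} (hs1 : s < 1) : ∫ u in (-1 : ℝ)..1, |u| ^ (-s) = 2 / (1 - s) := by
  have h1 := sing_zero_pos hs1 1 zero_le_one
  have h2 : IntervalIntegrable (fun u : ℝ => |u| ^ (-s)) volume (-1) 0 := by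
    have := (IntervalIntegrable.iff_comp_neg).1 h1
    simp only [abs_neg, neg_zero] at this
    exact this.symm
  have h3 : ∫ u in (0 : ℝ)..1, |u| ^ (-s) = 1 / (1 - s) := by
    have : ∫ u in (0 : ℝ)..1, |u| ^ (-s) = ∫ u in (0 : ℝ)..1, u ^ (-s) := by
      apply intervalIntegral.integral_congr_ae
      refine ae_of_all _ fun u hu => ?_
      rw [uIoc_of_le zero_le_one] at hu
      rw [abs_of_pos hu.1]
    rw [this, integral_rpow (Or.inl (by linarith))]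
    rw [Real.one_rpow, Real.zero_rpow (by linarith)]
    rw [show -s + 1 = 1 - s by ring, sub_zero]
  have h4 : ∫ u in (-1 : ℝ)..0, |u| ^ (-s) = 1 / (1 - s) := by
    rw [← h3]
    have := intervalIntegral.integral_comp_neg (a := 0) (b := 1) (fun u : ℝ => |u| ^ (-s))
    simp only [abs_neg, neg_zero] at this
    exact this.symm
  rw [← intervalIntegral.integral_add_adjacent_intervals h2 h1, h3, h4]
  ring

theorem sing_bound {s : ℝ} (hs0 : 0 < s) (hs1 : s < 1) (x : ℝ) {w : ℝ} (hw : 0 < w) :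
    IntegrableOn (fun t : ℝ => |t - x| ^ (-s)) (Icc (-w) w) ∧
    ∫ t in Icc (-w) w, |t - x| ^ (-s) ≤ 2 * w + 2 / (1 - s) := by
  have hIon : ∀ a b : ℝ, a ≤ b → IntegrableOn (fun t : ℝ => |t - x| ^ (-s)) (Icc a b) := by
    intro a b hab
    rw [integrableOn_Icc_iff_integrableOn_Ioc]
    exact (intervalIntegrable_iff_integrableOn_Ioc_of_le hab).1 (sing_int hs1 x a b)
  have hI := hIon (-w) w (by linarith)
  refine ⟨hI, ?_⟩
  have hJ := hIon (x - 1) (x + 1) (by linarith)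
  have h1 : ∀ t : ℝ, |t - x| ^ (-s) ≤ 1 + (Icc (x - 1) (x + 1)).indicator
      (fun t => |t - x| ^ (-s)) t := by
    intro t
    by_cases ht : t ∈ Icc (x - 1) (x + 1)
    · rw [indicator_of_mem ht]; linarith
    · rw [indicator_of_notMem ht, add_zero]
      have h2 : 1 ≤ |t - x| := by
        by_contra hlt
        push Not at hlt
        rw [abs_lt] at hlt
        exact ht ⟨by linarith, by linarith⟩
      exact Real.rpow_le_one_of_one_le_of_nonpos h2 (by linarith)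
  have hind : Integrable ((Icc (x - 1) (x + 1)).indicator fun t => |t - x| ^ (-s)) :=
    (integrable_indicator_iff measurableSet_Icc).2 hJ
  have h3 : ∫ t in Icc (-w) w, |t - x| ^ (-s) ≤
      ∫ t in Icc (-w) w, (1 + (Icc (x - 1) (x + 1)).indicator (fun t => |t - x| ^ (-s)) t) := by
    apply integral_mono hI
    · exact (integrable_const 1).add hind.integrableOn
    · exact h1
  have h4 : ∫ t in Icc (-w) w, (1 + (Icc (x - 1) (x + 1)).indicator (fun t => |t - x| ^ (-s)) t) =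
      2 * w + ∫ t in Icc (-w) w, (Icc (x - 1) (x + 1)).indicator (fun t => |t - x| ^ (-s)) t := by
    rw [integral_add (integrable_const 1) hind.integrableOn]
    congr 1
    rw [setIntegral_const, smul_eq_mul, mul_one, Measure.real, Real.volume_Icc,
      ENNReal.toReal_ofReal (by linarith)]
    ring
  have h5 : ∫ t in Icc (-w) w, (Icc (x - 1) (x + 1)).indicator (fun t => |t - x| ^ (-s)) t ≤
      ∫ t, (Icc (x - 1) (x + 1)).indicator (fun t => |t - x| ^ (-s)) t := by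
    apply setIntegral_le_integral hind
    refine ae_of_all _ fun t => ?_
    exact indicator_nonneg (fun t _ => by positivity) t
  have h6 : ∫ t, (Icc (x - 1) (x + 1)).indicator (fun t => |t - x| ^ (-s)) t = 2 / (1 - s) := by
    rw [integral_indicator measurableSet_Icc, integral_Icc_eq_integral_Ioc,
      ← intervalIntegral.integral_of_le (by linarith)]
    have := intervalIntegral.integral_comp_sub_right (a := x - 1) (b := x + 1)
      (fun u : ℝ => |u| ^ (-s)) x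
    rw [this, show x - 1 - x = -1 by ring, show x + 1 - x = 1 by ring, sing_one hs1]
  linarith

theorem norm_sq (t : ℝ) (ζ : ℂ) : ‖(t : ℂ) - ζ‖ ^ 2 = (t - ζ.re) ^ 2 + ζ.im ^ 2 := by
  rw [Complex.sq_norm, Complex.normSq_apply]
  simp
  ring

theorem norm_ge_re (t : ℝ) (ζ : ℂ) : |t - ζ.re| ≤ ‖(t : ℂ) - ζ‖ := by
  have := Complex.abs_re_le_norm ((t : ℂ) - ζ)
  simpa using this

theorem norm_ge_im (t : ℝ) (ζ : ℂ) : |ζ.im| ≤ ‖(t : ℂ) - ζ‖ := by
  have := Complex.abs_im_le_norm ((t : ℂ) - ζ)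
  simpa using this

theorem norm_pos {ζ : ℂ} (hζ : 0 < ζ.im) (t : ℝ) : 0 < ‖(t : ℂ) - ζ‖ :=
  lt_of_lt_of_le (abs_pos.2 hζ.ne') (norm_ge_im t ζ)

theorem sub_ne {ζ : ℂ} (hζ : 0 < ζ.im) (t : ℝ) : (t : ℂ) - ζ ≠ 0 := norm_pos_iff.1 (norm_pos hζ t)

/-- (1) -/
theorem part1 {w : ℝ} (hw : 0 < w) {ζ : ℂ} (hζ : 0 < ζ.im) :
    ∫ t, 1 / ‖(t : ℂ) - ζ‖ ^ 2 ∂(unif w) ≤ Real.pi / (2 * w * ζ.im) := by
  rw [integral_unif hw, smul_eq_mul, integral_Icc_eq_integral_Ioc,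
    ← intervalIntegral.integral_of_le (by linarith)]
  have hd : ∀ t : ℝ, HasDerivAt (fun t : ℝ => Real.arctan ((t - ζ.re) / ζ.im) / ζ.im)
      (1 / ‖(t : ℂ) - ζ‖ ^ 2) t := by
    intro t
    have h1 : HasDerivAt (fun t : ℝ => (t - ζ.re) / ζ.im) (1 / ζ.im) t :=
      ((hasDerivAt_id t).sub_const ζ.re).div_const ζ.im
    have h2 := h1.arctan.div_const ζ.im
    refine h2.congr_deriv ?_
    rw [norm_sq]
    have h3 : 0 < (t - ζ.re) ^ 2 + ζ.im ^ 2 := by positivity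
    have h4 : 1 + ((t - ζ.re) / ζ.im) ^ 2 = ((t - ζ.re) ^ 2 + ζ.im ^ 2) / ζ.im ^ 2 := by
      field_simp
      ring
    rw [h4]
    field_simp
  have hc : Continuous fun t : ℝ => 1 / ‖(t : ℂ) - ζ‖ ^ 2 := by
    refine continuous_const.div (by fun_prop) fun t => ?_
    exact (pow_pos (norm_pos hζ t) 2).ne'
  rw [intervalIntegral.integral_eq_sub_of_hasDerivAt (fun t _ => hd t)
    (hc.intervalIntegrable _ _)]
  have h1 := Real.arctan_lt_pi_div_two ((w - ζ.re) / ζ.im)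
  have h2 := Real.neg_pi_div_two_lt_arctan ((-w - ζ.re) / ζ.im)
  rw [← sub_div]
  have h3 : (Real.arctan ((w - ζ.re) / ζ.im) - Real.arctan ((-w - ζ.re) / ζ.im)) / ζ.im ≤
      Real.pi / ζ.im := by
    gcongr
    linarith
  calc _ ≤ 1 / (2 * w) * (Real.pi / ζ.im) := by gcongr
    _ = _ := by field_simp

theorem int1 {w : ℝ} {ζ : ℂ} (hζ : 0 < ζ.im) :
    Integrable (fun t : ℝ => 1 / ‖(t : ℂ) - ζ‖ ^ 2) (unif w) := by
  apply integrable_unif
  have hc : Continuous fun t : ℝ => 1 / ‖(t : ℂ) - ζ‖ ^ 2 := by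
    refine continuous_const.div (by fun_prop) fun t => ?_
    exact (pow_pos (norm_pos hζ t) 2).ne'
  exact hc.continuousOn.integrableOn_compact isCompact_Icc

/-- a bound by a singular integral -/
theorem sing_le {w : ℝ} (hw : 0 < w) {s : ℝ} (hs0 : 0 < s) (hs1 : s < 1) (x : ℝ) {f : ℝ → ℝ}
    {M : ℝ} (hM : 0 ≤ M) (hf0 : ∀ t, 0 ≤ f t) (hf : ∀ t, t ≠ x → f t ≤ M * |t - x| ^ (-s)) :
    ∫ t, f t ∂(unif w) ≤ M * ((2 * w + 2 / (1 - s)) / (2 * w)) := by
  obtain ⟨h1, h2⟩ := sing_bound hs0 hs1 x hw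
  rw [integral_unif hw, smul_eq_mul]
  have h3 : ∫ t in Icc (-w) w, f t ≤ ∫ t in Icc (-w) w, M * |t - x| ^ (-s) := by
    apply integral_mono_of_nonneg (ae_of_all _ hf0) (h1.const_mul M)
    have : ∀ᵐ t ∂(volume.restrict (Icc (-w) w)), t ≠ x := by
      apply ae_restrict_of_ae
      exact (measure_eq_zero_iff_ae_notMem.1 (measure_singleton x)).mono fun t ht => ht
    exact this.mono fun t ht => hf t ht
  rw [integral_const_mul] at h3
  calc 1 / (2 * w) * ∫ t in Icc (-w) w, f t ≤ 1 / (2 * w) * (M * (2 * w + 2 / (1 - s))) := by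
        gcongr
        exact h3.trans (mul_le_mul_of_nonneg_left h2 hM)
    _ = _ := by field_simp

/-- (2) -/
theorem part2 {w : ℝ} (hw : 0 < w) {ζ : ℂ} {y : ℝ} (hy : 0 < y) (hyζ : y ≤ ζ.im) :
    ∫ t, 1 / ‖(t : ℂ) - ζ‖ ∂(unif w) ≤ ((2 * w + 32) / (2 * w)) * y ^ (-(1 / 16) : ℝ) := by
  have hζ : 0 < ζ.im := hy.trans_le hyζ
  have h := sing_le hw (s := 15 / 16) (by norm_num) (by norm_num) ζ.re
    (f := fun t : ℝ => 1 / ‖(t : ℂ) - ζ‖) (M := y ^ (-(1 / 16) : ℝ)) (by positivity)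
    (fun t => by positivity) (by
      intro t ht
      have h1 := norm_pos hζ t
      have h2 : 0 < |t - ζ.re| := abs_pos.2 (sub_ne_zero.2 ht)
      have h3 : 1 / ‖(t : ℂ) - ζ‖ = ‖(t : ℂ) - ζ‖ ^ (-(1 / 16) : ℝ) * ‖(t : ℂ) - ζ‖ ^ (-(15 / 16) : ℝ) := by
        rw [← Real.rpow_add h1, show (-(1 / 16) : ℝ) + -(15 / 16) = -1 by norm_num,
          Real.rpow_neg_one, one_div]
      rw [h3]
      apply mul_le_mul _ _ (by positivity) (by positivity)
      · apply Real.rpow_le_rpow_of_nonpos hy _ (by norm_num)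
        have := norm_ge_im t ζ
        rw [abs_of_pos hζ] at this
        linarith
      · exact Real.rpow_le_rpow_of_nonpos h2 (norm_ge_re t ζ) (by norm_num))
  refine h.trans (le_of_eq ?_)
  norm_num
  ring

/-- (3) -/
theorem part3 {w : ℝ} (hw : 0 < w) {ζ : ℂ} (hζ : 0 < ζ.im) :
    ∫ t, 1 / ((t : ℂ) - ζ) ^ 2 ∂(unif w) = -1 / ((w - ζ) * (w + ζ)) := by
  rw [integral_unif hw, integral_Icc_eq_integral_Ioc,
    ← intervalIntegral.integral_of_le (by linarith)]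
  have hd : ∀ t : ℝ, HasDerivAt (fun t : ℝ => -(1 / ((t : ℂ) - ζ))) (1 / ((t : ℂ) - ζ) ^ 2) t := by
    intro t
    have h1 : HasDerivAt (fun t : ℝ => (t : ℂ) - ζ) 1 t :=
      (Complex.ofRealCLM.hasDerivAt (x := t)).sub_const ζ
    have h2 := h1.inv (sub_ne hζ t)
    have h3 := h2.neg
    refine (h3.congr_deriv ?_).congr_of_eventuallyEq ?_
    · rw [neg_div, neg_neg]
    · exact Filter.Eventually.of_forall fun t => by simp [one_div]
  have hc : Continuous fun t : ℝ => 1 / ((t : ℂ) - ζ) ^ 2 := by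
    refine continuous_const.div (by fun_prop) fun t => ?_
    exact pow_ne_zero 2 (sub_ne hζ t)
  rw [intervalIntegral.integral_eq_sub_of_hasDerivAt (fun t _ => hd t)
    (hc.intervalIntegrable _ _)]
  have h1 := sub_ne hζ w
  have h2 := sub_ne hζ (-w)
  have h3 : (w : ℂ) + ζ ≠ 0 := by
    intro h
    apply h2
    push_cast
    linear_combination -h
  have hwC : (w : ℂ) ≠ 0 := by exact_mod_cast hw.ne'
  push_cast at h2 ⊢
  rw [Complex.real_smul]
  push_cast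
  have h4 : (-(w : ℂ) - ζ) = -(w + ζ) := by ring
  rw [h4]
  field_simp
  ring

/-- (4), for all complex centres -/
theorem part4 {w : ℝ} (hw : 0 < w) (b : ℂ) :
    ∫ t, (1 / ‖(t : ℂ) - b‖) ^ (1 / 2 : ℝ) ∂(unif w) ≤ (2 * w + 4) / (2 * w) := by
  have h := sing_le hw (s := 1 / 2) (by norm_num) (by norm_num) b.re
    (f := fun t : ℝ => (1 / ‖(t : ℂ) - b‖) ^ (1 / 2 : ℝ)) (M := 1) (by positivity)
    (fun t => by positivity) (by
      intro t ht
      have h2 : 0 < |t - b.re| := abs_pos.2 (sub_ne_zero.2 ht)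
      have h1 := norm_ge_re t b
      rw [one_mul, one_div, Real.inv_rpow (norm_nonneg _), ← Real.rpow_neg (norm_nonneg _)]
      exact Real.rpow_le_rpow_of_nonpos h2 h1 (by norm_num))
  refine h.trans (le_of_eq ?_)
  norm_num

theorem int_hu {w : ℝ} {ζ : ℂ} (hζ : 0 < ζ.im) :
    Integrable (fun t : ℝ => 1 / ((t : ℂ) - ζ)) (unif w) := by
  apply integrable_unif
  have hc : Continuous fun t : ℝ => 1 / ((t : ℂ) - ζ) :=
    continuous_const.div (by fun_prop) fun t => sub_ne hζ t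
  exact hc.continuousOn.integrableOn_compact isCompact_Icc

/-- (5) -/
theorem part5 {w : ℝ} (hw : 0 < w) {ζ ζ' : ℂ} {y : ℝ} (hy : 0 < y) (h1 : y ≤ ζ.im)
    (h2 : y ≤ ζ'.im) : ‖hu w ζ - hu w ζ'‖ ≤ Real.pi / (2 * w) / y * ‖ζ - ζ'‖ := by
  have hζ : 0 < ζ.im := hy.trans_le h1
  have hζ' : 0 < ζ'.im := hy.trans_le h2
  unfold hu
  rw [← integral_sub (int_hu hζ) (int_hu hζ')]
  have h3 : ∀ t : ℝ, ‖1 / ((t : ℂ) - ζ) - 1 / ((t : ℂ) - ζ')‖ ≤
      ‖ζ - ζ'‖ / 2 * (1 / ‖(t : ℂ) - ζ‖ ^ 2 + 1 / ‖(t : ℂ) - ζ'‖ ^ 2) := by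
    intro t
    have e : 1 / ((t : ℂ) - ζ) - 1 / ((t : ℂ) - ζ') = (ζ - ζ') * (1 / ((t : ℂ) - ζ)) *
        (1 / ((t : ℂ) - ζ')) := by
      have := sub_ne hζ t
      have := sub_ne hζ' t
      field_simp
      ring
    rw [e, norm_mul, norm_mul, norm_div, norm_div, norm_one]
    obtain ⟨p, hp⟩ : ∃ p, p = 1 / ‖(t : ℂ) - ζ‖ := ⟨_, rfl⟩
    obtain ⟨q, hq⟩ : ∃ q, q = 1 / ‖(t : ℂ) - ζ'‖ := ⟨_, rfl⟩
    have e1 : 1 / ‖(t : ℂ) - ζ‖ ^ 2 = p ^ 2 := by rw [hp, div_pow, one_pow]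
    have e2 : 1 / ‖(t : ℂ) - ζ'‖ ^ 2 = q ^ 2 := by rw [hq, div_pow, one_pow]
    rw [e1, e2, ← hp, ← hq]
    nlinarith [norm_nonneg (ζ - ζ'), mul_nonneg (norm_nonneg (ζ - ζ')) (sq_nonneg (p - q))]
  calc ‖∫ t, (1 / ((t : ℂ) - ζ) - 1 / ((t : ℂ) - ζ')) ∂(unif w)‖
      ≤ ∫ t, ‖1 / ((t : ℂ) - ζ) - 1 / ((t : ℂ) - ζ')‖ ∂(unif w) := norm_integral_le_integral_norm _
    _ ≤ ∫ t, ‖ζ - ζ'‖ / 2 * (1 / ‖(t : ℂ) - ζ‖ ^ 2 + 1 / ‖(t : ℂ) - ζ'‖ ^ 2) ∂(unif w) := by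
        apply integral_mono_of_nonneg (ae_of_all _ fun t => norm_nonneg _)
        · exact ((int1 hζ).add (int1 hζ')).const_mul _
        · exact ae_of_all _ h3
    _ = ‖ζ - ζ'‖ / 2 * ((∫ t, 1 / ‖(t : ℂ) - ζ‖ ^ 2 ∂(unif w)) +
          ∫ t, 1 / ‖(t : ℂ) - ζ'‖ ^ 2 ∂(unif w)) := by
        rw [integral_const_mul, integral_add (int1 hζ) (int1 hζ')]
    _ ≤ ‖ζ - ζ'‖ / 2 * (Real.pi / (2 * w * y) + Real.pi / (2 * w * y)) := by
        have e1 : Real.pi / (2 * w * ζ.im) ≤ Real.pi / (2 * w * y) := by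
          have := Real.pi_pos
          gcongr
        have e2 : Real.pi / (2 * w * ζ'.im) ≤ Real.pi / (2 * w * y) := by
          have := Real.pi_pos
          gcongr
        gcongr
        · exact (part1 hw hζ).trans e1
        · exact (part1 hw hζ').trans e2
    _ = _ := by field_simp; ring

/-- lower bound for the integrals with the factor `|t - κ|^(1/2)` -/
theorem low {w : ℝ} (hw : 0 < w) (κ : ℂ) {g : ℝ → ℝ} {m : ℝ} (hm : 0 ≤ m)
    (hg : ContinuousOn g (Icc (-w) w)) (hgm : ∀ t ∈ Icc (-w) w, m ≤ g t) :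
    3 / 4 * (w / 4) ^ (1 / 2 : ℝ) * m ≤
      ∫ t, ‖(t : ℂ) - κ‖ ^ (1 / 2 : ℝ) * g t ∂(unif w) := by
  rw [integral_unif hw, smul_eq_mul]
  obtain ⟨q, hq⟩ : ∃ q, q = (w / 4) ^ (1 / 2 : ℝ) := ⟨_, rfl⟩
  rw [← hq]
  have hq0 : 0 ≤ q := by rw [hq]; positivity
  obtain ⟨J, hJ⟩ : ∃ J, J = Ioo (κ.re - w / 4) (κ.re + w / 4) := ⟨_, rfl⟩
  have hJm : MeasurableSet J := by rw [hJ]; exact measurableSet_Ioo
  have hJf : volume J ≠ ⊤ := by rw [hJ, Real.volume_Ioo]; exact ENNReal.ofReal_ne_top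
  have hJi : Integrable (J.indicator fun _ => q * m) :=
    (integrable_indicator_iff hJm).2 (integrableOn_const hJf)
  have h1 : ∀ t ∈ Icc (-w) w, q * m - J.indicator (fun _ => q * m) t ≤
      ‖(t : ℂ) - κ‖ ^ (1 / 2 : ℝ) * g t := by
    intro t ht
    have hgt := hgm t ht
    by_cases htJ : t ∈ J
    · rw [indicator_of_mem htJ, sub_self]
      have : 0 ≤ g t := hm.trans hgt
      positivity
    · rw [indicator_of_notMem htJ, sub_zero]
      have h2 : w / 4 ≤ |t - κ.re| := by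
        by_contra hlt
        push Not at hlt
        rw [abs_lt] at hlt
        apply htJ
        rw [hJ]
        exact ⟨by linarith, by linarith⟩
      apply mul_le_mul _ hgt hm (by positivity)
      rw [hq]
      exact Real.rpow_le_rpow (by positivity) (h2.trans (norm_ge_re t κ)) (by norm_num)
  have hcont : ContinuousOn (fun t : ℝ => ‖(t : ℂ) - κ‖ ^ (1 / 2 : ℝ) * g t) (Icc (-w) w) := by
    refine ContinuousOn.mul (Continuous.continuousOn ?_) hg
    exact (by fun_prop : Continuous fun t : ℝ => ‖(t : ℂ) - κ‖).rpow_const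
      fun t => Or.inr (by norm_num)
  have h3 : ∫ t in Icc (-w) w, (q * m - J.indicator (fun _ => q * m) t) ≤
      ∫ t in Icc (-w) w, ‖(t : ℂ) - κ‖ ^ (1 / 2 : ℝ) * g t := by
    apply setIntegral_mono_on
    · exact (integrable_const (q * m)).sub hJi.integrableOn
    · exact hcont.integrableOn_compact isCompact_Icc
    · exact measurableSet_Icc
    · exact h1
  have h4 : ∫ t in Icc (-w) w, (q * m - J.indicator (fun _ => q * m) t) =
      2 * w * (q * m) - ∫ t in Icc (-w) w, J.indicator (fun _ => q * m) t := by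
    rw [integral_sub (integrable_const _) hJi.integrableOn]
    congr 1
    rw [setIntegral_const, smul_eq_mul, Measure.real, Real.volume_Icc,
      ENNReal.toReal_ofReal (by linarith)]
    ring
  have h5 : ∫ t in Icc (-w) w, J.indicator (fun _ => q * m) t ≤ w / 2 * (q * m) := by
    calc ∫ t in Icc (-w) w, J.indicator (fun _ => q * m) t ≤
          ∫ t, J.indicator (fun _ => q * m) t := by
          apply setIntegral_le_integral hJi
          exact ae_of_all _ fun t => indicator_nonneg (fun _ _ => mul_nonneg hq0 hm) t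
      _ = w / 2 * (q * m) := by
          rw [integral_indicator hJm, setIntegral_const, smul_eq_mul, Measure.real, hJ,
            Real.volume_Ioo, ENNReal.toReal_ofReal (by linarith)]
          ring
  have h6 : 3 / 2 * w * (q * m) ≤ ∫ t in Icc (-w) w, ‖(t : ℂ) - κ‖ ^ (1 / 2 : ℝ) * g t := by
    have : 2 * w * (q * m) - w / 2 * (q * m) = 3 / 2 * w * (q * m) := by ring
    linarith
  calc 3 / 4 * q * m = 1 / (2 * w) * (3 / 2 * w * (q * m)) := by field_simp; ring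
    _ ≤ _ := by gcongr

/-- upper bound -/
theorem up {w : ℝ} (hw : 0 < w) (b : ℂ) :
    ∫ t, (1 / ‖(t : ℂ) - b‖) ^ (1 / 2 : ℝ) ∂(unif w) ≤
      (2 + (2 * w + 4) / (2 * w) * (3 * w) ^ (1 / 2 : ℝ)) * (w + ‖b‖) ^ (-(1 / 2) : ℝ) := by
  have := unif_prob hw
  have hpos : 0 < w + ‖b‖ := by positivity
  rcases le_total (2 * w) ‖b‖ with hb | hb
  · have hb0 : 0 < ‖b‖ := by linarith
    have h1 : ∀ᵐ t ∂(unif w), (1 / ‖((t : ℝ) : ℂ) - b‖) ^ (1 / 2 : ℝ) ≤
        2 * (w + ‖b‖) ^ (-(1 / 2) : ℝ) := by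
      filter_upwards [unif_ae w] with t ht
      have h2 : ‖b‖ / 2 ≤ ‖(t : ℂ) - b‖ := by
        have h3 : ‖b‖ ≤ ‖(t : ℂ) - b‖ + ‖(t : ℂ)‖ := by
          have : b = (t : ℂ) - ((t : ℂ) - b) := by ring
          calc ‖b‖ = ‖(t : ℂ) - ((t : ℂ) - b)‖ := by rw [← this]
            _ ≤ ‖(t : ℂ)‖ + ‖(t : ℂ) - b‖ := norm_sub_le _ _
            _ = _ := by ring
        have h4 : ‖(t : ℂ)‖ ≤ w := by
          rw [Complex.norm_real, Real.norm_eq_abs, abs_le]
          exact ht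
        linarith
      have h5 : (w + ‖b‖) / 4 ≤ ‖(t : ℂ) - b‖ := by linarith
      have h6 : 0 < ‖(t : ℂ) - b‖ := by linarith
      rw [one_div, Real.inv_rpow h6.le, ← Real.rpow_neg h6.le]
      calc ‖(t : ℂ) - b‖ ^ (-(1 / 2 : ℝ)) ≤ ((w + ‖b‖) / 4) ^ (-(1 / 2 : ℝ)) :=
            Real.rpow_le_rpow_of_nonpos (by positivity) h5 (by norm_num)
        _ = 2 * (w + ‖b‖) ^ (-(1 / 2) : ℝ) := by
            rw [Real.div_rpow hpos.le (by norm_num)]
            have : (4 : ℝ) ^ (-(1 / 2 : ℝ)) = 1 / 2 := by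
              rw [Real.rpow_neg (by norm_num), show (4 : ℝ) = 2 ^ (2 : ℝ) by norm_num,
                ← Real.rpow_mul (by norm_num)]
              norm_num
            rw [this]
            ring
    calc ∫ t, (1 / ‖(t : ℂ) - b‖) ^ (1 / 2 : ℝ) ∂(unif w) ≤
          ∫ _, 2 * (w + ‖b‖) ^ (-(1 / 2) : ℝ) ∂(unif w) := by
          apply integral_mono_of_nonneg (ae_of_all _ fun t => by positivity) (integrable_const _) h1
      _ = 2 * (w + ‖b‖) ^ (-(1 / 2) : ℝ) := by simp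
      _ ≤ _ := by
          apply mul_le_mul_of_nonneg_right _ (by positivity)
          have : 0 ≤ (2 * w + 4) / (2 * w) * (3 * w) ^ (1 / 2 : ℝ) := by positivity
          linarith
  · have h1 : w + ‖b‖ ≤ 3 * w := by linarith
    have h2 : 1 ≤ (3 * w) ^ (1 / 2 : ℝ) * (w + ‖b‖) ^ (-(1 / 2) : ℝ) := by
      rw [Real.rpow_neg hpos.le, ← div_eq_mul_inv, one_le_div (by positivity)]
      exact Real.rpow_le_rpow hpos.le h1 (by norm_num)
    calc ∫ t, (1 / ‖(t : ℂ) - b‖) ^ (1 / 2 : ℝ) ∂(unif w) ≤ (2 * w + 4) / (2 * w) := part4 hw b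
      _ ≤ (2 * w + 4) / (2 * w) * ((3 * w) ^ (1 / 2 : ℝ) * (w + ‖b‖) ^ (-(1 / 2) : ℝ)) :=
          le_mul_of_one_le_right (by positivity) h2
      _ ≤ _ := by
          rw [add_mul, mul_assoc]
          have : 0 ≤ 2 * (w + ‖b‖) ^ (-(1 / 2) : ℝ) := by positivity
          linarith

/-- (6) -/
theorem part6 {w : ℝ} (hw : 0 < w) (κ α β c : ℂ) (h : ∀ t : ℝ, |t| ≤ w → α * t + β ≠ 0) :
    ∫ t, ‖c / (α * (t : ℂ) + β)‖ ^ (1 / 2 : ℝ) ∂(unif w) ≤
      ((2 + (2 * w + 4) / (2 * w) * (3 * w) ^ (1 / 2 : ℝ)) / (3 / 4 * (w / 4) ^ (1 / 2 : ℝ))) *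
        ∫ t, ‖(t : ℂ) - κ‖ ^ (1 / 2 : ℝ) * ‖c / (α * (t : ℂ) + β)‖ ^ (1 / 2 : ℝ) ∂(unif w) := by
  have := unif_prob hw
  obtain ⟨M, hM⟩ : ∃ M, M = 2 + (2 * w + 4) / (2 * w) * (3 * w) ^ (1 / 2 : ℝ) := ⟨_, rfl⟩
  obtain ⟨q, hq⟩ : ∃ q, q = 3 / 4 * (w / 4) ^ (1 / 2 : ℝ) := ⟨_, rfl⟩
  have hq0 : 0 < q := by rw [hq]; positivity
  have hM2 : 2 ≤ M := by
    rw [hM]
    have : 0 ≤ (2 * w + 4) / (2 * w) * (3 * w) ^ (1 / 2 : ℝ) := by positivity
    linarith
  rw [← hM, ← hq]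
  have hgc : ContinuousOn (fun t : ℝ => ‖c / (α * (t : ℂ) + β)‖ ^ (1 / 2 : ℝ)) (Icc (-w) w) := by
    refine ContinuousOn.rpow_const (ContinuousOn.norm ?_) fun t _ => Or.inr (by norm_num)
    refine continuousOn_const.div (by fun_prop) fun t ht => ?_
    exact h t (abs_le.2 ht)
  -- lower bound `m` for the function, upper bound `M m` for the integral
  have key : ∀ m : ℝ, 0 ≤ m → (∀ t ∈ Icc (-w) w, m ≤ ‖c / (α * (t : ℂ) + β)‖ ^ (1 / 2 : ℝ)) →
      ∫ t, ‖c / (α * (t : ℂ) + β)‖ ^ (1 / 2 : ℝ) ∂(unif w) ≤ M * m →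
      ∫ t, ‖c / (α * (t : ℂ) + β)‖ ^ (1 / 2 : ℝ) ∂(unif w) ≤ M / q *
        ∫ t, ‖(t : ℂ) - κ‖ ^ (1 / 2 : ℝ) * ‖c / (α * (t : ℂ) + β)‖ ^ (1 / 2 : ℝ) ∂(unif w) := by
    intro m hm h1 h2
    have h3 := low hw κ hm hgc h1
    rw [← hq] at h3
    calc _ ≤ M * m := h2
      _ = M / q * (q * m) := by field_simp
      _ ≤ _ := by gcongr
  by_cases hα : α = 0
  · apply key (‖c / β‖ ^ (1 / 2 : ℝ)) (by positivity)
    · intro t _
      rw [hα, zero_mul, zero_add]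
    · simp only [hα, zero_mul, zero_add]
      rw [integral_const]
      simp only [probReal_univ, smul_eq_mul, one_mul]
      have : 0 ≤ ‖c / β‖ ^ (1 / 2 : ℝ) := by positivity
      nlinarith
  · obtain ⟨b, hb⟩ : ∃ b, b = -β / α := ⟨_, rfl⟩
    obtain ⟨K, hK⟩ : ∃ K, K = ‖c / α‖ ^ (1 / 2 : ℝ) := ⟨_, rfl⟩
    have hK0 : 0 ≤ K := by rw [hK]; positivity
    have hform : ∀ t : ℝ, ‖c / (α * (t : ℂ) + β)‖ ^ (1 / 2 : ℝ) =
        K * (1 / ‖(t : ℂ) - b‖) ^ (1 / 2 : ℝ) := by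
      intro t
      have h1 : α * (t : ℂ) + β = α * ((t : ℂ) - b) := by
        rw [hb]; field_simp; ring
      rw [h1, hK, ← Real.mul_rpow (norm_nonneg _) (by positivity), ← div_div, norm_div,
        div_eq_mul_one_div]
    have hpos : 0 < w + ‖b‖ := by positivity
    apply key (K * (w + ‖b‖) ^ (-(1 / 2) : ℝ)) (by positivity)
    · intro t ht
      have h0 : (t : ℂ) - b ≠ 0 := by
        intro h0
        apply h t (abs_le.2 ht)
        have h1 : (t : ℂ) = b := sub_eq_zero.1 h0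
        rw [h1, hb]
        field_simp
        ring
      have h1 : 0 < ‖(t : ℂ) - b‖ := norm_pos_iff.2 h0
      have h2 : ‖(t : ℂ) - b‖ ≤ w + ‖b‖ := by
        refine (norm_sub_le _ _).trans ?_
        have : ‖(t : ℂ)‖ ≤ w := by
          rw [Complex.norm_real, Real.norm_eq_abs, abs_le]
          exact ht
        linarith
      rw [hform]
      apply mul_le_mul_of_nonneg_left _ hK0
      rw [one_div ‖(t : ℂ) - b‖, Real.inv_rpow h1.le, ← Real.rpow_neg h1.le]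
      exact Real.rpow_le_rpow_of_nonpos h1 h2 (by norm_num)
    · simp only [hform]
      rw [integral_const_mul]
      have := up hw b
      rw [← hM] at this
      calc K * ∫ t, (1 / ‖(t : ℂ) - b‖) ^ (1 / 2 : ℝ) ∂(unif w) ≤
            K * (M * (w + ‖b‖) ^ (-(1 / 2) : ℝ)) := mul_le_mul_of_nonneg_left this hK0
        _ = _ := by ring

theorem u1 : ∀ w : ℝ, 0 < w → IsProbabilityMeasure (unif w) ∧ ∃ C : ℝ, 1 ≤ C ∧
    (∀ ζ : ℂ, 0 < ζ.im → ∫ t, 1 / ‖(t : ℂ) - ζ‖ ^ 2 ∂(unif w) ≤ Real.pi / (2 * w * ζ.im)) ∧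
    (∀ (ζ : ℂ) (y : ℝ), 0 < y → y ≤ 2 → y ≤ ζ.im →
      ∫ t, 1 / ‖(t : ℂ) - ζ‖ ∂(unif w) ≤ C * y ^ (-(1 / 16) : ℝ)) ∧
    (∀ ζ : ℂ, 0 < ζ.im → ∫ t, 1 / ((t : ℂ) - ζ) ^ 2 ∂(unif w) = -1 / ((w - ζ) * (w + ζ))) ∧
    (∀ ζ : ℂ, 0 < ζ.im → ∫ t, (1 / ‖(t : ℂ) - ζ‖) ^ (1 / 2 : ℝ) ∂(unif w) ≤ C) ∧
    (∀ (ζ ζ' : ℂ) (y : ℝ), 0 < y → y ≤ ζ.im → y ≤ ζ'.im →
      ‖hu w ζ - hu w ζ'‖ ≤ C / y * ‖ζ - ζ'‖) ∧
    ∀ κ α β c : ℂ, (∀ t : ℝ, |t| ≤ w → α * t + β ≠ 0) →
      ∫ t, ‖c / (α * (t : ℂ) + β)‖ ^ (1 / 2 : ℝ) ∂(unif w)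
        ≤ C * ∫ t, ‖(t : ℂ) - κ‖ ^ (1 / 2 : ℝ) * ‖c / (α * (t : ℂ) + β)‖ ^ (1 / 2 : ℝ) ∂(unif w) := by
  intro w hw
  refine ⟨unif_prob hw, ?_⟩
  have hpi := Real.pi_pos
  obtain ⟨a1, ha1⟩ : ∃ a, a = (2 * w + 32) / (2 * w) := ⟨_, rfl⟩
  obtain ⟨a2, ha2⟩ : ∃ a, a = (2 * w + 4) / (2 * w) := ⟨_, rfl⟩
  obtain ⟨a3, ha3⟩ : ∃ a, a = Real.pi / (2 * w) := ⟨_, rfl⟩
  obtain ⟨a4, ha4⟩ : ∃ a, a = (2 + (2 * w + 4) / (2 * w) * (3 * w) ^ (1 / 2 : ℝ)) /
    (3 / 4 * (w / 4) ^ (1 / 2 : ℝ)) := ⟨_, rfl⟩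
  have h1 : 0 ≤ a1 := by rw [ha1]; positivity
  have h2 : 0 ≤ a2 := by rw [ha2]; positivity
  have h3 : 0 ≤ a3 := by rw [ha3]; positivity
  have h4 : 0 ≤ a4 := by rw [ha4]; positivity
  refine ⟨1 + a1 + a2 + a3 + a4, by linarith, fun ζ hζ => part1 hw hζ, ?_,
    fun ζ hζ => part3 hw hζ, ?_, ?_, ?_⟩
  · intro ζ y hy _ hyζ
    refine (part2 hw hy hyζ).trans ?_
    rw [← ha1]
    exact mul_le_mul_of_nonneg_right (by linarith) (by positivity)
  · intro ζ _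
    refine (part4 hw ζ).trans ?_
    rw [← ha2]
    linarith
  · intro ζ ζ' y hy hyζ hyζ'
    refine (part5 hw hy hyζ hyζ').trans ?_
    rw [← ha3]
    gcongr
    linarith
  · intro κ α β c h
    refine (part6 hw κ α β c h).trans ?_
    rw [← ha4]
    apply mul_le_mul_of_nonneg_right (by linarith)
    exact integral_nonneg fun t => by positivity

theorem main : S_U1 := u1

end Pool.Agent.N491.SD.U1
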