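import Pool.Agent.N659.HB.Stm8

/-!
# Fractional moments, exponent one half (part FM of project SD, helper659; proof by helper491)
-/

set_option autoImplicit false

namespace Pool.Agent.N491.SD.FM

open MeasureTheory Filter Set Pool.Agent.W792.LL Pool.Agent.W792.WA Pool.Agent.N659.HB
open scoped Topology ENNReal

/-! ### elementary -/

theorem half_add {a b : ℝ} (ha : 0 ≤ a) (hb : 0 ≤ b) :
    (a + b) ^ (1 / 2 : ℝ) ≤ a ^ (1 / 2 : ℝ) + b ^ (1 / 2 : ℝ) :=
  Real.rpow_add_le_add_rpow ha hb (by norm_num) (by norm_num)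

theorem half_sum {ι : Type*} (s : Finset ι) (f g : ι → ℝ) (hf : ∀ i, 0 ≤ f i) (hg : ∀ i, 0 ≤ g i) :
    (∑ i ∈ s, (f i + g i)) ^ (1 / 2 : ℝ) ≤ ∑ i ∈ s, (f i ^ (1 / 2 : ℝ) + g i ^ (1 / 2 : ℝ)) := by
  classical
  induction s using Finset.induction_on with
  | empty => simp
  | insert a s ha ih =>
    rw [Finset.sum_insert ha, Finset.sum_insert ha]
    refine (half_add (add_nonneg (hf a) (hg a)) (Finset.sum_nonneg fun i _ =>
      add_nonneg (hf i) (hg i))).trans ?_
    exact add_le_add (half_add (hf a) (hg a)) ih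

theorem half_mono {X S γ : ℝ} (hX : 0 ≤ X) (hγ : 0 ≤ γ) (hS : 0 ≤ S) (h : X ≤ γ * S) :
    X ^ (1 / 2 : ℝ) ≤ γ ^ (1 / 2 : ℝ) * S ^ (1 / 2 : ℝ) := by
  rw [← Real.mul_rpow hγ hS]
  exact Real.rpow_le_rpow hX h (by norm_num)

theorem nd_self {d : ℕ} (x : Fin d → ℤ) : nd x x = 0 := by
  unfold nd
  simp

theorem nd_add {d : ℕ} (x a : Fin d → ℤ) (i : Fin d) : nd x a ≤ nd x (a + Pi.single i 1) + 1 := by
  have e1 : ∀ z : Fin d → ℤ, nd x z = (x i - z i).natAbs +
      ∑ j ∈ Finset.univ.erase i, (x j - z j).natAbs := fun z =>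
    (Finset.add_sum_erase Finset.univ (fun j => (x j - z j).natAbs) (Finset.mem_univ i)).symm
  obtain ⟨z, hz⟩ : ∃ z : Fin d → ℤ, z = a + Pi.single i 1 := ⟨_, rfl⟩
  rw [← hz, e1, e1]
  have h1 : ∑ j ∈ Finset.univ.erase i, (x j - z j).natAbs =
      ∑ j ∈ Finset.univ.erase i, (x j - a j).natAbs := by
    apply Finset.sum_congr rfl
    intro j hj
    rw [Finset.mem_erase] at hj
    rw [hz, Pi.add_apply, Pi.single_eq_of_ne hj.1, add_zero]
  have h2 : z i = a i + 1 := by rw [hz, Pi.add_apply, Pi.single_eq_same]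
  rw [h1, h2]
  omega

theorem nd_sub {d : ℕ} (x a : Fin d → ℤ) (i : Fin d) : nd x a ≤ nd x (a - Pi.single i 1) + 1 := by
  have h := nd_add (-x) (-a) i
  have e : ∀ y z : Fin d → ℤ, nd (-y) (-z) = nd y z := by
    intro y z
    unfold nd
    apply Finset.sum_congr rfl
    intro j _
    rw [Pi.neg_apply, Pi.neg_apply]
    omega
  have e2 : -a + Pi.single i 1 = -(a - Pi.single i 1) := by abel
  rw [e2, e, e] at h
  exact h

/-- decay from the inequality at all sites other than `x` -/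
theorem decay {d : ℕ} (x : Fin d → ℤ) (f : (Fin d → ℤ) → ℝ) (ρ B : ℝ) (hρ : 0 ≤ ρ)
    (hr : 2 * d * ρ ≤ 1 / 2) (hf0 : ∀ a, 0 ≤ f a) (hB : ∀ a, f a ≤ B)
    (h : ∀ a, a ≠ x → f a ≤ ρ * ∑ i : Fin d, (f (a + Pi.single i 1) + f (a - Pi.single i 1))) :
    ∀ a, f a ≤ f x * (2 * d * ρ) ^ nd x a := by
  have hd : (0 : ℝ) ≤ d := Nat.cast_nonneg d
  have hr0 : 0 ≤ 2 * d * ρ := by positivity
  have hsum : ∀ (a : Fin d → ℤ) (m : ℝ), (∀ i, f (a + Pi.single i 1) ≤ m) →
      (∀ i, f (a - Pi.single i 1) ≤ m) →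
      ρ * ∑ i : Fin d, (f (a + Pi.single i 1) + f (a - Pi.single i 1)) ≤ 2 * d * ρ * m := by
    intro a m h1 h2
    have h3 : ∑ i : Fin d, (f (a + Pi.single i 1) + f (a - Pi.single i 1)) ≤ ∑ _i : Fin d, (m + m) :=
      Finset.sum_le_sum fun i _ => add_le_add (h1 i) (h2 i)
    rw [Finset.sum_const, Finset.card_univ, Fintype.card_fin, nsmul_eq_mul] at h3
    calc _ ≤ ρ * (d * (m + m)) := mul_le_mul_of_nonneg_left h3 hρ
      _ = _ := by ring
  -- first `f ≤ f x`
  have hbdd : BddAbove (Set.range f) := ⟨B, by rintro _ ⟨a, rfl⟩; exact hB a⟩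
  obtain ⟨M, hM⟩ : ∃ M, M = ⨆ a, f a := ⟨_, rfl⟩
  have hfM : ∀ a, f a ≤ M := fun a => by rw [hM]; exact le_ciSup hbdd a
  have hM0 : 0 ≤ M := (hf0 x).trans (hfM x)
  have hfx : ∀ a, f a ≤ f x := by
    have h1 : M ≤ max (f x) (M / 2) := by
      rw [hM]
      apply ciSup_le
      intro a
      rw [← hM]
      by_cases ha : a = x
      · rw [ha]; exact le_max_left _ _
      · refine le_trans ?_ (le_max_right _ _)
        refine (h a ha).trans ((hsum a M (fun i => hfM _) fun i => hfM _).trans ?_)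
        nlinarith
    have h2 : M ≤ f x := by
      rcases le_max_iff.1 h1 with h3 | h3
      · exact h3
      · have : M ≤ 0 := by linarith
        exact this.trans (hf0 x)
    exact fun a => (hfM a).trans h2
  have main : ∀ (n : ℕ) (a : Fin d → ℤ), n ≤ nd x a → f a ≤ f x * (2 * d * ρ) ^ n := by
    intro n
    induction n with
    | zero => intro a _; rw [pow_zero, mul_one]; exact hfx a
    | succ n ih =>
      intro a ha
      have hax : a ≠ x := by
        rintro rfl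
        rw [nd_self] at ha
        omega
      refine (h a hax).trans ((hsum a (f x * (2 * d * ρ) ^ n) (fun i => ih _ ?_)
        fun i => ih _ ?_).trans (le_of_eq (by ring)))
      · have := nd_add x a i; omega
      · have := nd_sub x a i; omega
  exact fun a => main _ a le_rfl

/-! ### resampling -/

theorem resample (hRS : S_RS) (ν : Measure ℝ) [IsProbabilityMeasure ν] {d : ℕ} (a : Fin d → ℤ)
    {F : ((Fin d → ℤ) → ℝ) → ℝ} (hF : Measurable F) {B : ℝ} (hB : ∀ v, |F v| ≤ B) :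
    ∫ v, F v ∂(Pn ν (Fin d → ℤ)) =
      ∫ v, (∫ t, F (Function.update v a t) ∂ν) ∂(Pn ν (Fin d → ℤ)) := by
  have hmp := hRS ν d a
  have h1 : ∫ v, F v ∂(Pn ν (Fin d → ℤ)) =
      ∫ p : ((Fin d → ℤ) → ℝ) × ℝ, F (Function.update p.1 a p.2)
        ∂((Pn ν (Fin d → ℤ)).prod ν) := by
    conv_lhs => rw [← hmp.map_eq]
    exact integral_map hmp.measurable.aemeasurable hF.aestronglyMeasurable
  rw [h1, integral_prod]
  refine Integrable.of_bound (hF.comp hmp.measurable).aestronglyMeasurable B ?_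
  exact ae_of_all _ fun p => by rw [Real.norm_eq_abs]; exact hB _

theorem resample_le (hRS : S_RS) (ν : Measure ℝ) [IsProbabilityMeasure ν] {d : ℕ} (a : Fin d → ℤ)
    {F G : ((Fin d → ℤ) → ℝ) → ℝ} (hF : Measurable F) (hG : Measurable G) {B B' : ℝ}
    (hF0 : ∀ v, 0 ≤ F v) (hB : ∀ v, |F v| ≤ B) (hB' : ∀ v, |G v| ≤ B')
    (h : ∀ v, ∫ t, F (Function.update v a t) ∂ν ≤ ∫ t, G (Function.update v a t) ∂ν) :
    ∫ v, F v ∂(Pn ν (Fin d → ℤ)) ≤ ∫ v, G v ∂(Pn ν (Fin d → ℤ)) := by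
  rw [resample hRS ν a hF hB, resample hRS ν a hG hB']
  have hmp := hRS ν d a
  apply integral_mono_of_nonneg
  · exact ae_of_all _ fun v => integral_nonneg fun t => hF0 _
  · have hI : Integrable (fun p : ((Fin d → ℤ) → ℝ) × ℝ => G (Function.update p.1 a p.2))
        ((Pn ν (Fin d → ℤ)).prod ν) := by
      refine Integrable.of_bound (hG.comp hmp.measurable).aestronglyMeasurable B' ?_
      exact ae_of_all _ fun p => by rw [Real.norm_eq_abs]; exact hB' _
    exact hI.integral_prod_left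
  · exact ae_of_all _ h

/-- the decoupling inequality of `S_U1` -/
def Dec (w C : ℝ) : Prop := ∀ κ α β c : ℂ, (∀ t : ℝ, |t| ≤ w → α * t + β ≠ 0) →
  ∫ t, ‖c / (α * (t : ℂ) + β)‖ ^ (1 / 2 : ℝ) ∂(unif w)
    ≤ C * ∫ t, ‖(t : ℂ) - κ‖ ^ (1 / 2 : ℝ) * ‖c / (α * (t : ℂ) + β)‖ ^ (1 / 2 : ℝ) ∂(unif w)

theorem unif_ae (w : ℝ) : ∀ᵐ t ∂(unif w), t ∈ Icc (-w) w := by
  unfold unif
  exact Measure.ae_smul_measure (ae_restrict_mem measurableSet_Icc) _

/-- one step at a good site -/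
theorem step (hRS : S_RS) {w C : ℝ} [IsProbabilityMeasure (unif w)] (hC0 : 0 ≤ C)
    (hC : Dec w C) {d : ℕ} {γ : ℝ} (hγ : 0 ≤ γ) (κ : ℂ) (a : Fin d → ℤ)
    (H : (Fin d → ℤ) → ((Fin d → ℤ) → ℝ) → ℂ) {B : ℝ}
    (hm : ∀ z, Measurable (H z)) (hB : ∀ z v, ‖H z v‖ ≤ B)
    (h3 : ∀ v, ∀ t : ℝ, |t| ≤ w → ‖(t : ℂ) - κ‖ * ‖H a (Function.update v a t)‖ ≤
      γ * ∑ i : Fin d, (‖H (a + Pi.single i 1) (Function.update v a t)‖ +
        ‖H (a - Pi.single i 1) (Function.update v a t)‖))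
    (h4 : ∀ v, ∃ α β c : ℂ, ∀ t : ℝ, |t| ≤ w → α * t + β ≠ 0 ∧
      H a (Function.update v a t) = c / (α * t + β)) :
    ∫ v, ‖H a v‖ ^ (1 / 2 : ℝ) ∂(Pn (unif w) (Fin d → ℤ)) ≤
      C * γ ^ (1 / 2 : ℝ) * ∑ i : Fin d,
        (∫ v, ‖H (a + Pi.single i 1) v‖ ^ (1 / 2 : ℝ) ∂(Pn (unif w) (Fin d → ℤ)) +
          ∫ v, ‖H (a - Pi.single i 1) v‖ ^ (1 / 2 : ℝ) ∂(Pn (unif w) (Fin d → ℤ))) := by
  have hB0 : 0 ≤ B := (norm_nonneg _).trans (hB a fun _ => 0)
  have hmh : ∀ z, Measurable fun v => ‖H z v‖ ^ (1 / 2 : ℝ) :=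
    fun z => (hm z).norm.pow_const _
  have hBh : ∀ z v, ‖H z v‖ ^ (1 / 2 : ℝ) ≤ B ^ (1 / 2 : ℝ) :=
    fun z v => Real.rpow_le_rpow (norm_nonneg _) (hB z v) (by norm_num)
  have hint : ∀ z, Integrable (fun v => ‖H z v‖ ^ (1 / 2 : ℝ)) (Pn (unif w) (Fin d → ℤ)) := by
    intro z
    refine Integrable.of_bound (hmh z).aestronglyMeasurable (B ^ (1 / 2 : ℝ)) ?_
    refine ae_of_all _ fun v => ?_
    rw [Real.norm_of_nonneg (by positivity)]
    exact hBh z v
  obtain ⟨G, hG⟩ : ∃ G : ((Fin d → ℤ) → ℝ) → ℝ, G = fun v => C * γ ^ (1 / 2 : ℝ) *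
    ∑ i : Fin d, (‖H (a + Pi.single i 1) v‖ ^ (1 / 2 : ℝ) +
      ‖H (a - Pi.single i 1) v‖ ^ (1 / 2 : ℝ)) := ⟨_, rfl⟩
  have hGm : Measurable G := by
    rw [hG]
    exact (Finset.measurable_sum _ fun i _ => (hmh _).add (hmh _)).const_mul _
  have hG0 : ∀ v, 0 ≤ G v := by
    intro v
    rw [hG]
    positivity
  have hGB : ∀ v, |G v| ≤ C * γ ^ (1 / 2 : ℝ) * (d * (B ^ (1 / 2 : ℝ) + B ^ (1 / 2 : ℝ))) := by
    intro v
    rw [abs_of_nonneg (hG0 v), hG]
    apply mul_le_mul_of_nonneg_left _ (by positivity)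
    calc _ ≤ ∑ _i : Fin d, (B ^ (1 / 2 : ℝ) + B ^ (1 / 2 : ℝ)) :=
          Finset.sum_le_sum fun i _ => add_le_add (hBh _ _) (hBh _ _)
      _ = _ := by rw [Finset.sum_const, Finset.card_univ, Fintype.card_fin, nsmul_eq_mul]
  have hGi : ∫ v, G v ∂(Pn (unif w) (Fin d → ℤ)) = C * γ ^ (1 / 2 : ℝ) * ∑ i : Fin d,
        (∫ v, ‖H (a + Pi.single i 1) v‖ ^ (1 / 2 : ℝ) ∂(Pn (unif w) (Fin d → ℤ)) +
          ∫ v, ‖H (a - Pi.single i 1) v‖ ^ (1 / 2 : ℝ) ∂(Pn (unif w) (Fin d → ℤ))) := by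
    have hint2 : ∀ i ∈ (Finset.univ : Finset (Fin d)), Integrable
        (fun v => ‖H (a + Pi.single i 1) v‖ ^ (1 / 2 : ℝ) +
          ‖H (a - Pi.single i 1) v‖ ^ (1 / 2 : ℝ)) (Pn (unif w) (Fin d → ℤ)) := by
      intro i _
      exact (hint (a + Pi.single i 1)).add (hint (a - Pi.single i 1))
    have e0 := integral_finsetSum (μ := Pn (unif w) (Fin d → ℤ)) Finset.univ hint2
    rw [hG, integral_const_mul, e0]
    congr 1
    apply Finset.sum_congr rfl
    intro i _
    exact integral_add (hint (a + Pi.single i 1)) (hint (a - Pi.single i 1))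
  rw [← hGi]
  refine resample_le hRS (unif w) a (hmh a) hGm (fun v => by positivity)
    (B := B ^ (1 / 2 : ℝ)) (fun v => ?_) hGB ?_
  · rw [abs_of_nonneg (by positivity)]
    exact hBh a v
  intro v
  obtain ⟨α, β, c, hαβ⟩ := h4 v
  have hmu : ∀ z, Measurable fun t : ℝ => ‖H z (Function.update v a t)‖ ^ (1 / 2 : ℝ) :=
    fun z => (hmh z).comp (measurable_update v)
  have e1 : ∫ t, ‖H a (Function.update v a t)‖ ^ (1 / 2 : ℝ) ∂(unif w) =
      ∫ t, ‖c / (α * (t : ℂ) + β)‖ ^ (1 / 2 : ℝ) ∂(unif w) := by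
    apply integral_congr_ae
    filter_upwards [unif_ae w] with t ht
    rw [(hαβ t (abs_le.2 ht)).2]
  have e2 : ∫ t, ‖(t : ℂ) - κ‖ ^ (1 / 2 : ℝ) * ‖c / (α * (t : ℂ) + β)‖ ^ (1 / 2 : ℝ) ∂(unif w) =
      ∫ t, ‖(t : ℂ) - κ‖ ^ (1 / 2 : ℝ) * ‖H a (Function.update v a t)‖ ^ (1 / 2 : ℝ) ∂(unif w) := by
    apply integral_congr_ae
    filter_upwards [unif_ae w] with t ht
    rw [(hαβ t (abs_le.2 ht)).2]
  have e3 := hC κ α β c fun t ht => (hαβ t ht).1
  have hSm : Measurable fun t : ℝ => ∑ i : Fin d,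
      (‖H (a + Pi.single i 1) (Function.update v a t)‖ ^ (1 / 2 : ℝ) +
        ‖H (a - Pi.single i 1) (Function.update v a t)‖ ^ (1 / 2 : ℝ)) :=
    Finset.measurable_sum _ fun i _ => (hmu _).add (hmu _)
  have e4 : ∫ t, ‖(t : ℂ) - κ‖ ^ (1 / 2 : ℝ) * ‖H a (Function.update v a t)‖ ^ (1 / 2 : ℝ)
        ∂(unif w) ≤
      ∫ t, γ ^ (1 / 2 : ℝ) * ∑ i : Fin d,
        (‖H (a + Pi.single i 1) (Function.update v a t)‖ ^ (1 / 2 : ℝ) +
          ‖H (a - Pi.single i 1) (Function.update v a t)‖ ^ (1 / 2 : ℝ)) ∂(unif w) := by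
    apply integral_mono_of_nonneg
    · exact ae_of_all _ fun t => by positivity
    · refine Integrable.of_bound (hSm.const_mul _).aestronglyMeasurable
        (γ ^ (1 / 2 : ℝ) * (d * (B ^ (1 / 2 : ℝ) + B ^ (1 / 2 : ℝ)))) ?_
      refine ae_of_all _ fun t => ?_
      rw [Real.norm_of_nonneg (by positivity)]
      apply mul_le_mul_of_nonneg_left _ (by positivity)
      calc _ ≤ ∑ _i : Fin d, (B ^ (1 / 2 : ℝ) + B ^ (1 / 2 : ℝ)) :=
            Finset.sum_le_sum fun i _ => add_le_add (hBh _ _) (hBh _ _)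
        _ = _ := by rw [Finset.sum_const, Finset.card_univ, Fintype.card_fin, nsmul_eq_mul]
    · filter_upwards [unif_ae w] with t ht
      have h5 := h3 v t (abs_le.2 ht)
      rw [← Real.mul_rpow (norm_nonneg _) (norm_nonneg _)]
      refine (half_mono (by positivity) hγ (Finset.sum_nonneg fun i _ => by positivity) h5).trans ?_
      apply mul_le_mul_of_nonneg_left _ (by positivity)
      exact half_sum _ _ _ (fun i => norm_nonneg _) fun i => norm_nonneg _
  calc ∫ t, ‖H a (Function.update v a t)‖ ^ (1 / 2 : ℝ) ∂(unif w) ≤ C * _ := by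
        rw [e1]; exact e3
    _ = C * ∫ t, ‖(t : ℂ) - κ‖ ^ (1 / 2 : ℝ) * ‖H a (Function.update v a t)‖ ^ (1 / 2 : ℝ)
          ∂(unif w) := by rw [e2]
    _ ≤ C * _ := mul_le_mul_of_nonneg_left e4 hC0
    _ = ∫ t, G (Function.update v a t) ∂(unif w) := by
        rw [← integral_const_mul]
        apply integral_congr_ae
        refine ae_of_all _ fun t => ?_
        rw [hG]
        simp only
        ring

/-- pointwise bounds give bounds of the integrals -/
theorem pt {w : ℝ} [IsProbabilityMeasure (unif w)] {d : ℕ} {γ : ℝ} (hγ : 0 ≤ γ)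
    (a : Fin d → ℤ) (H : (Fin d → ℤ) → ((Fin d → ℤ) → ℝ) → ℂ) {B : ℝ}
    (hm : ∀ z, Measurable (H z)) (hB : ∀ z v, ‖H z v‖ ≤ B) {L e : ℝ} (hL : 0 ≤ L)
    (he : 0 ≤ e)
    (h : ∀ v, ‖H a v‖ ≤ L * (e + γ * ∑ i : Fin d, (‖H (a + Pi.single i 1) v‖ +
      ‖H (a - Pi.single i 1) v‖))) :
    ∫ v, ‖H a v‖ ^ (1 / 2 : ℝ) ∂(Pn (unif w) (Fin d → ℤ)) ≤
      L ^ (1 / 2 : ℝ) * (e ^ (1 / 2 : ℝ) + γ ^ (1 / 2 : ℝ) * ∑ i : Fin d,
        (∫ v, ‖H (a + Pi.single i 1) v‖ ^ (1 / 2 : ℝ) ∂(Pn (unif w) (Fin d → ℤ)) +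
          ∫ v, ‖H (a - Pi.single i 1) v‖ ^ (1 / 2 : ℝ) ∂(Pn (unif w) (Fin d → ℤ)))) := by
  have hmh : ∀ z, Measurable fun v => ‖H z v‖ ^ (1 / 2 : ℝ) :=
    fun z => (hm z).norm.pow_const _
  have hint : ∀ z, Integrable (fun v => ‖H z v‖ ^ (1 / 2 : ℝ)) (Pn (unif w) (Fin d → ℤ)) := by
    intro z
    refine Integrable.of_bound (hmh z).aestronglyMeasurable (B ^ (1 / 2 : ℝ)) ?_
    refine ae_of_all _ fun v => ?_
    rw [Real.norm_of_nonneg (by positivity)]
    exact Real.rpow_le_rpow (norm_nonneg _) (hB z v) (by norm_num)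
  have hint2 : ∀ i ∈ (Finset.univ : Finset (Fin d)), Integrable
      (fun v => ‖H (a + Pi.single i 1) v‖ ^ (1 / 2 : ℝ) +
        ‖H (a - Pi.single i 1) v‖ ^ (1 / 2 : ℝ)) (Pn (unif w) (Fin d → ℤ)) := by
    intro i _
    exact (hint (a + Pi.single i 1)).add (hint (a - Pi.single i 1))
  have e0 := integral_finsetSum (μ := Pn (unif w) (Fin d → ℤ)) Finset.univ hint2
  have hsI : Integrable (fun v => ∑ i : Fin d, (‖H (a + Pi.single i 1) v‖ ^ (1 / 2 : ℝ) +
        ‖H (a - Pi.single i 1) v‖ ^ (1 / 2 : ℝ))) (Pn (unif w) (Fin d → ℤ)) :=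
    integrable_finsetSum _ hint2
  have hpt : ∀ v, ‖H a v‖ ^ (1 / 2 : ℝ) ≤ L ^ (1 / 2 : ℝ) * (e ^ (1 / 2 : ℝ) +
      γ ^ (1 / 2 : ℝ) * ∑ i : Fin d, (‖H (a + Pi.single i 1) v‖ ^ (1 / 2 : ℝ) +
        ‖H (a - Pi.single i 1) v‖ ^ (1 / 2 : ℝ))) := by
    intro v
    have hS : 0 ≤ ∑ i : Fin d, (‖H (a + Pi.single i 1) v‖ + ‖H (a - Pi.single i 1) v‖) :=
      Finset.sum_nonneg fun i _ => by positivity
    refine (half_mono (norm_nonneg _) hL (by positivity) (h v)).trans ?_
    apply mul_le_mul_of_nonneg_left _ (by positivity)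
    refine (half_add he (by positivity)).trans ?_
    apply add_le_add le_rfl
    rw [Real.mul_rpow hγ hS]
    apply mul_le_mul_of_nonneg_left _ (by positivity)
    exact half_sum _ _ _ (fun i => norm_nonneg _) fun i => norm_nonneg _
  calc ∫ v, ‖H a v‖ ^ (1 / 2 : ℝ) ∂(Pn (unif w) (Fin d → ℤ)) ≤
        ∫ v, L ^ (1 / 2 : ℝ) * (e ^ (1 / 2 : ℝ) +
          γ ^ (1 / 2 : ℝ) * ∑ i : Fin d, (‖H (a + Pi.single i 1) v‖ ^ (1 / 2 : ℝ) +
            ‖H (a - Pi.single i 1) v‖ ^ (1 / 2 : ℝ))) ∂(Pn (unif w) (Fin d → ℤ)) := by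
        apply integral_mono (hint a) _ hpt
        exact ((integrable_const _).add (hsI.const_mul _)).const_mul _
    _ = _ := by
        rw [integral_const_mul, integral_add (integrable_const _) (hsI.const_mul _),
          integral_const_mul, e0, integral_const]
        simp only [probReal_univ, smul_eq_mul, one_mul]
        congr 3
        apply Finset.sum_congr rfl
        intro i _
        exact integral_add (hint (a + Pi.single i 1)) (hint (a - Pi.single i 1))

theorem clip_eq {w t : ℝ} (h : |t| ≤ w) : max (-w) (min w t) = t := by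
  rw [abs_le] at h
  rw [min_eq_right h.2, max_eq_right h.1]

theorem main : S_RK → S_RS → S_U1 → S_FM := by
  intro hRK hRS hU d w θ _ hw hθ0 hθ1
  obtain ⟨-, C₁, hC₁, -, -, -, -, -, hdec⟩ := hU w hw
  have hdec' : Dec w C₁ := hdec
  have hd : (0 : ℝ) ≤ d := Nat.cast_nonneg d
  obtain ⟨δ, hδ⟩ : ∃ δ, δ = 1 - θ := ⟨_, rfl⟩
  have hδ0 : 0 < δ := by rw [hδ]; linarith
  obtain ⟨K, hK⟩ : ∃ K, K = (2 / (δ * w)) ^ (1 / 2 : ℝ) := ⟨_, rfl⟩
  have hK0 : 0 < K := by rw [hK]; positivity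
  obtain ⟨A, hA⟩ : ∃ A, A = C₁ + K := ⟨_, rfl⟩
  have hA1 : 1 ≤ A := by rw [hA]; linarith
  have hA0 : 0 < A := by linarith
  refine ⟨2 * (d + 1) * A, min ((1 / (4 * (d + 1) * A)) ^ 2) (δ * w / (4 * (d + 1))), ?_, ?_, ?_⟩
  · nlinarith
  · exact lt_min (by positivity) (by positivity)
  intro γ hγ hγ₀ ζ hζre hζ hζ2 x a b
  have hγ1 : γ ≤ (1 / (4 * (d + 1) * A)) ^ 2 := hγ₀.trans (min_le_left _ _)
  have hγ2 : γ ≤ δ * w / (4 * (d + 1)) := hγ₀.trans (min_le_right _ _)
  obtain ⟨g, hg⟩ : ∃ g, g = γ ^ (1 / 2 : ℝ) := ⟨_, rfl⟩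
  have hg0 : 0 < g := by rw [hg]; positivity
  have hg1 : g ≤ 1 / (4 * (d + 1) * A) := by
    have h1 : g ≤ ((1 / (4 * (d + 1) * A)) ^ 2) ^ (1 / 2 : ℝ) := by
      rw [hg]
      exact Real.rpow_le_rpow hγ.le hγ1 (by norm_num)
    have h2 : ((1 / (4 * (d + 1) * A)) ^ 2) ^ (1 / 2 : ℝ) = 1 / (4 * (d + 1) * A) := by
      rw [← Real.sqrt_eq_rpow, Real.sqrt_sq (by positivity)]
    rwa [h2] at h1
  have hr : 2 * d * (A * g) ≤ 1 / 2 := by
    have h1 : A * g ≤ 1 / (4 * (d + 1)) := by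
      calc A * g ≤ A * (1 / (4 * (d + 1) * A)) := mul_le_mul_of_nonneg_left hg1 hA0.le
        _ = _ := by field_simp
    calc 2 * d * (A * g) ≤ 2 * d * (1 / (4 * (d + 1))) :=
          mul_le_mul_of_nonneg_left h1 (by positivity)
      _ ≤ 1 / 2 := by
          rw [mul_one_div, div_le_div_iff₀ (by positivity) (by norm_num)]
          nlinarith
  have hKr : K * (g * (2 * d)) ≤ 1 / 2 := by
    have h1 : K ≤ A := by rw [hA]; linarith
    calc K * (g * (2 * d)) ≤ A * (g * (2 * d)) := mul_le_mul_of_nonneg_right h1 (by positivity)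
      _ = 2 * d * (A * g) := by ring
      _ ≤ _ := hr
  have hdγ : 2 * d * γ ≤ δ * w / 2 := by
    calc 2 * d * γ ≤ 2 * d * (δ * w / (4 * (d + 1))) := mul_le_mul_of_nonneg_left hγ2 (by positivity)
      _ = δ * w / 2 * (d / (d + 1)) := by field_simp; ring
      _ ≤ δ * w / 2 * 1 := by
          apply mul_le_mul_of_nonneg_left _ (by positivity)
          rw [div_le_one (by positivity)]
          linarith
      _ = _ := mul_one _
  obtain ⟨hZm, hQm, ⟨B, hB⟩, hge, hxv⟩ := hRK d w γ ζ hw hγ.le hζ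
  have hB0 : 0 ≤ B := (norm_nonneg _).trans (hB x x fun _ => 0)
  -- basic facts
  have hne : ∀ (y : Fin d → ℤ) V, ge w γ ζ (Function.update V y w) y y ≠ 0 := by
    intro y V h0
    have h1 := (hxv y V).1
    unfold Qx at h1
    rw [h0, div_zero] at h1
    exact zero_ne_one h1
  have hZ : ∀ (y : Fin d → ℤ) V (t : ℝ), (t : ℂ) - Zx w γ ζ y V ≠ 0 := by
    intro y V t h0
    obtain ⟨h1, h2, h3, -⟩ := hxv y V
    have h4 : 0 < (Zx w γ ζ y V).im := by
      rw [h3]
      have h5 := h2.le_tsum y fun j _ => by positivity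
      rw [h1, norm_one, one_pow] at h5
      have : 0 < ∑' a, ‖Qx w γ ζ y a V‖ ^ 2 := by linarith
      positivity
    have h6 := congrArg Complex.im h0
    simp at h6
    linarith
  obtain ⟨κ, hκ⟩ : ∃ κ : ℂ, κ = ζ - 2 * d * γ := ⟨_, rfl⟩
  -- the equations
  have eqG : ∀ (y a : Fin d → ℤ) V (t : ℝ), |t| ≤ w → V a = t →
      ge w γ ζ V y a * ((t : ℂ) - κ) = (if y = a then 1 else 0) + γ * ∑ i : Fin d,
        (ge w γ ζ V y (a + Pi.single i 1) + ge w γ ζ V y (a - Pi.single i 1)) := by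
    intro y a V t ht hVa
    have h1 := (hxv y V).2.2.2.2.2.2 a
    rw [hVa, clip_eq ht] at h1
    rw [hκ]
    linear_combination h1
  have normsum : ∀ (u u' : Fin d → ℂ), ‖(γ : ℂ) * ∑ i, (u i + u' i)‖ ≤
      γ * ∑ i, (‖u i‖ + ‖u' i‖) := by
    intro u u'
    rw [norm_mul, Complex.norm_real, Real.norm_of_nonneg hγ.le]
    apply mul_le_mul_of_nonneg_left _ hγ.le
    exact (norm_sum_le _ _).trans (Finset.sum_le_sum fun i _ => norm_add_le _ _)
  have eqQ : ∀ (a : Fin d → ℤ) V (t : ℝ), a ≠ x → |t| ≤ w → V a = t →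
      Qx w γ ζ x a V * ((t : ℂ) - κ) = γ * ∑ i : Fin d,
        (Qx w γ ζ x (a + Pi.single i 1) V + Qx w γ ζ x (a - Pi.single i 1) V) := by
    intro a V t hax ht hVa
    have h1 := eqG x a (Function.update V x w) t ht (by
      rw [Function.update_of_ne hax, hVa])
    rw [if_neg hax.symm, zero_add] at h1
    unfold Qx
    have h2 := hne x V
    have h3 : ∑ i : Fin d, (ge w γ ζ (Function.update V x w) x (a + Pi.single i 1) /
        ge w γ ζ (Function.update V x w) x x +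
        ge w γ ζ (Function.update V x w) x (a - Pi.single i 1) /
        ge w γ ζ (Function.update V x w) x x) = (∑ i : Fin d,
        (ge w γ ζ (Function.update V x w) x (a + Pi.single i 1) +
          ge w γ ζ (Function.update V x w) x (a - Pi.single i 1))) /
        ge w γ ζ (Function.update V x w) x x := by
      rw [Finset.sum_div]
      apply Finset.sum_congr rfl
      intro i _
      rw [add_div]
    rw [h3, mul_div_assoc', ← h1]
    ring
  -- the functions of one variable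
  have formG : ∀ (y a : Fin d → ℤ) V (t : ℝ), |t| ≤ w →
      ge w γ ζ (Function.update V a t) y a = Qx w γ ζ a y V / ((t : ℂ) - Zx w γ ζ a V) := by
    intro y a V t ht
    rw [(hge _ y a).1]
    exact (hxv a V).2.2.2.2.1 t y ht
  have formQ : ∀ (a : Fin d → ℤ) V, a ≠ x → ∃ α β c : ℂ, ∀ t : ℝ, |t| ≤ w → α * t + β ≠ 0 ∧
      Qx w γ ζ x a (Function.update V a t) = c / (α * t + β) := by
    intro a V hax
    obtain ⟨V1, hV1⟩ : ∃ V1, V1 = Function.update V x w := ⟨_, rfl⟩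
    obtain ⟨G0, hG0⟩ : ∃ G0, G0 = ge w γ ζ (Function.update V1 a w) x x := ⟨_, rfl⟩
    obtain ⟨g1, hg1⟩ : ∃ g1, g1 = ge w γ ζ (Function.update V1 a w) x a := ⟨_, rfl⟩
    obtain ⟨Q', hQ'⟩ : ∃ Q', Q' = Qx w γ ζ a x V1 := ⟨_, rfl⟩
    obtain ⟨Z, hZe⟩ : ∃ Z, Z = Zx w γ ζ a V1 := ⟨_, rfl⟩
    refine ⟨G0 - g1 * Q', w * g1 * Q' - G0 * Z, Q', fun t ht => ?_⟩
    have hcomm : Function.update (Function.update V a t) x w = Function.update V1 a t := by
      rw [hV1, Function.update_comm hax]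
    have h1 : ge w γ ζ (Function.update V1 a t) x a = Q' / ((t : ℂ) - Z) := by
      rw [hQ', hZe]
      exact formG x a V1 t ht
    have h1' : ge w γ ζ (Function.update V1 a t) a x = Q' / ((t : ℂ) - Z) := by
      rw [(hge _ a x).1, h1]
    have hZt : (t : ℂ) - Z ≠ 0 := by rw [hZe]; exact hZ a V1 t
    have h2 : ge w γ ζ (Function.update V1 a t) x x =
        ((G0 - g1 * Q') * t + (w * g1 * Q' - G0 * Z)) / ((t : ℂ) - Z) := by
      rw [(hxv a V1).2.2.2.2.2.1 t x x ht, h1', ← hG0, ← hg1]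
      field_simp
      push_cast
      ring
    have h3 : ge w γ ζ (Function.update V1 a t) x x ≠ 0 := by
      rw [← hcomm]
      exact hne x _
    have h4 : (G0 - g1 * Q') * t + (w * g1 * Q' - G0 * Z) ≠ 0 := by
      intro h0
      rw [h2, h0, zero_div] at h3
      exact h3 rfl
    refine ⟨h4, ?_⟩
    unfold Qx
    rw [hcomm, h1, h2]
    field_simp
  -- lower bounds for the diagonal factor
  have hlow : ∀ s : ℝ, |s| = w → δ * w / 2 ≤ ‖(s : ℂ) - κ‖ := by
    intro s hs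
    have h1 : |s - ζ.re + 2 * d * γ| ≤ ‖(s : ℂ) - κ‖ := by
      have h2 := Complex.abs_re_le_norm ((s : ℂ) - κ)
      have h3 : ((s : ℂ) - κ).re = s - ζ.re + 2 * d * γ := by
        rw [hκ]
        simp
        ring
      rwa [h3] at h2
    have h4 : w - θ * w - 2 * d * γ ≤ |s - ζ.re + 2 * d * γ| := by
      have h5 : |s| ≤ |s - ζ.re + 2 * d * γ| + (|ζ.re| + |2 * d * γ|) := by
        calc |s| = |(s - ζ.re + 2 * d * γ) + (ζ.re - 2 * d * γ)| := by congr 1; ring
          _ ≤ |s - ζ.re + 2 * d * γ| + |ζ.re - 2 * d * γ| := abs_add_le _ _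
          _ ≤ _ := by gcongr; exact abs_sub _ _
      have h6 : |2 * d * γ| = 2 * d * γ := abs_of_nonneg (by positivity)
      rw [hs, h6] at h5
      linarith
    have h5 : w - θ * w = δ * w := by rw [hδ]; ring
    linarith
  have hpos2 : 0 < δ * w / 2 := by positivity
  have hinv : (2 / (δ * w)) = 1 / (δ * w / 2) := by field_simp
  -- final comparison
  have hcmp : (2 * d * (A * g)) ≤ 2 * (d + 1) * A * γ ^ (1 / 2 : ℝ) := by
    rw [← hg]
    nlinarith [mul_pos hA0 hg0]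
  have hcmp0 : 0 ≤ 2 * d * (A * g) := by positivity
  -- first claim
  refine ⟨?_, ?_⟩
  · obtain ⟨H, hH⟩ : ∃ H : (Fin d → ℤ) → ((Fin d → ℤ) → ℝ) → ℂ,
        H = fun z v => Qx w γ ζ x z (Function.update v b w) := ⟨_, rfl⟩
    have hm : ∀ z, Measurable (H z) := by
      intro z
      rw [hH]
      exact (hQm x z).comp measurable_update_left
    have hHB : ∀ z v, ‖H z v‖ ≤ B := by
      intro z v
      rw [hH]
      exact hB x z _
    obtain ⟨f, hf⟩ : ∃ f : (Fin d → ℤ) → ℝ, f = fun z =>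
      ∫ v, ‖H z v‖ ^ (1 / 2 : ℝ) ∂(Pn (unif w) (Fin d → ℤ)) := ⟨_, rfl⟩
    have hfx : f x = 1 := by
      rw [hf, hH]
      simp only [(hxv x _).1, norm_one, Real.one_rpow, integral_const, probReal_univ, smul_eq_mul,
        mul_one]
    have hf0 : ∀ z, 0 ≤ f z := by
      intro z
      rw [hf]
      exact integral_nonneg fun v => by positivity
    have hfB : ∀ z, f z ≤ B ^ (1 / 2 : ℝ) := by
      intro z
      rw [hf]
      calc ∫ v, ‖H z v‖ ^ (1 / 2 : ℝ) ∂(Pn (unif w) (Fin d → ℤ)) ≤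
            ∫ _, B ^ (1 / 2 : ℝ) ∂(Pn (unif w) (Fin d → ℤ)) := by
            apply integral_mono_of_nonneg (ae_of_all _ fun v => by positivity)
              (integrable_const _)
            exact ae_of_all _ fun v => Real.rpow_le_rpow (norm_nonneg _) (hHB z v) (by norm_num)
        _ = B ^ (1 / 2 : ℝ) := by simp
    have hdecay := decay x f (A * g) (B ^ (1 / 2 : ℝ)) (by positivity) hr hf0 hfB (by
      intro a hax
      have hS0 : 0 ≤ ∑ i : Fin d, (f (a + Pi.single i 1) + f (a - Pi.single i 1)) :=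
        Finset.sum_nonneg fun i _ => add_nonneg (hf0 _) (hf0 _)
      by_cases hab : a = b
      · have h1 := pt (w := w) hγ.le a H hm hHB (L := 2 / (δ * w)) (e := 0) (by positivity) le_rfl (by
          intro v
          have h2 := eqQ a (Function.update v b w) w hax (by rw [abs_of_pos hw])
            (by rw [hab, Function.update_self])
          have h3 : ‖H a v‖ * (δ * w / 2) ≤ γ * ∑ i : Fin d, (‖H (a + Pi.single i 1) v‖ +
              ‖H (a - Pi.single i 1) v‖) := by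
            calc ‖H a v‖ * (δ * w / 2) ≤ ‖H a v‖ * ‖(w : ℂ) - κ‖ :=
                  mul_le_mul_of_nonneg_left (hlow w (abs_of_pos hw)) (norm_nonneg _)
              _ = ‖Qx w γ ζ x a (Function.update v b w) * ((w : ℂ) - κ)‖ := by
                  rw [norm_mul, hH]
              _ ≤ _ := by
                  rw [h2, hH]
                  exact normsum _ _
          rw [zero_add, hinv, one_div_mul_eq_div, le_div_iff₀ hpos2]
          exact h3)
        rw [Real.zero_rpow (by norm_num), zero_add, ← hK, ← hg] at h1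
        have h2 : f a ≤ K * (g * ∑ i : Fin d, (f (a + Pi.single i 1) + f (a - Pi.single i 1))) := by
          rw [hf]; exact h1
        refine h2.trans ?_
        rw [← mul_assoc]
        apply mul_le_mul_of_nonneg_right _ hS0
        apply mul_le_mul_of_nonneg_right _ hg0.le
        rw [hA]; linarith
      · have h1 := step hRS (by linarith : 0 ≤ C₁) hdec' hγ.le κ a H hm hHB (by
          intro v t ht
          have h2 := eqQ a (Function.update (Function.update v a t) b w) t hax ht (by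
            rw [Function.update_of_ne hab, Function.update_self])
          calc ‖(t : ℂ) - κ‖ * ‖H a (Function.update v a t)‖ =
                ‖Qx w γ ζ x a (Function.update (Function.update v a t) b w) * ((t : ℂ) - κ)‖ := by
                rw [norm_mul, hH, mul_comm]
            _ ≤ _ := by
                rw [h2, hH]
                exact normsum _ _) (by
          intro v
          obtain ⟨α, β, c, h2⟩ := formQ a (Function.update v b w) hax
          refine ⟨α, β, c, fun t ht => ⟨(h2 t ht).1, ?_⟩⟩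
          rw [hH]
          simp only
          rw [Function.update_comm hab, (h2 t ht).2])
        rw [← hg] at h1
        have h2 : f a ≤ C₁ * g * ∑ i : Fin d, (f (a + Pi.single i 1) + f (a - Pi.single i 1)) := by
          rw [hf]; exact h1
        refine h2.trans ?_
        apply mul_le_mul_of_nonneg_right _ hS0
        apply mul_le_mul_of_nonneg_right _ hg0.le
        rw [hA]; linarith)
    have h1 := hdecay a
    rw [hfx, one_mul] at h1
    have h2 : f a = ∫ v, ‖Qx w γ ζ x a (Function.update v b w)‖ ^ (1 / 2 : ℝ)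
        ∂(Pn (unif w) (Fin d → ℤ)) := by rw [hf, hH]
    rw [← h2]
    exact h1.trans (pow_le_pow_left₀ hcmp0 hcmp _)
  -- second and third claim
  have second : ∀ s : ℝ, |s| = w →
      ∫ v, ‖ge w γ ζ (Function.update v x s) x a‖ ^ (1 / 2 : ℝ) ∂(Pn (unif w) (Fin d → ℤ))
        ≤ 2 * (d + 1) * A * (2 * (d + 1) * A * γ ^ (1 / 2 : ℝ)) ^ nd x a := by
    intro s hs
    obtain ⟨H, hH⟩ : ∃ H : (Fin d → ℤ) → ((Fin d → ℤ) → ℝ) → ℂ,
        H = fun z v => ge w γ ζ (Function.update v x s) x z := ⟨_, rfl⟩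
    obtain ⟨B', hB'⟩ : ∃ B', B' = 1 / ζ.im := ⟨_, rfl⟩
    have hm : ∀ z, Measurable (H z) := by
      intro z
      have e : H z = fun v => Qx w γ ζ x z v / ((s : ℂ) - Zx w γ ζ x v) := by
        rw [hH]
        funext v
        exact (hxv x v).2.2.2.2.1 s z hs.le
      rw [e]
      exact (hQm x z).div ((hZm x).const_sub _)
    have hHB : ∀ z v, ‖H z v‖ ≤ B' := by
      intro z v
      rw [hH, hB']
      exact (hge _ x z).2
    obtain ⟨f, hf⟩ : ∃ f : (Fin d → ℤ) → ℝ, f = fun z =>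
      ∫ v, ‖H z v‖ ^ (1 / 2 : ℝ) ∂(Pn (unif w) (Fin d → ℤ)) := ⟨_, rfl⟩
    have hf0 : ∀ z, 0 ≤ f z := by
      intro z
      rw [hf]
      exact integral_nonneg fun v => by positivity
    have hfB : ∀ z, f z ≤ B' ^ (1 / 2 : ℝ) := by
      intro z
      rw [hf]
      calc ∫ v, ‖H z v‖ ^ (1 / 2 : ℝ) ∂(Pn (unif w) (Fin d → ℤ)) ≤
            ∫ _, B' ^ (1 / 2 : ℝ) ∂(Pn (unif w) (Fin d → ℤ)) := by
            apply integral_mono_of_nonneg (ae_of_all _ fun v => by positivity)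
              (integrable_const _)
            exact ae_of_all _ fun v => Real.rpow_le_rpow (norm_nonneg _) (hHB z v) (by norm_num)
        _ = B' ^ (1 / 2 : ℝ) := by simp
    have hdecay := decay x f (A * g) (B' ^ (1 / 2 : ℝ)) (by positivity) hr hf0 hfB (by
      intro a hax
      have hS0 : 0 ≤ ∑ i : Fin d, (f (a + Pi.single i 1) + f (a - Pi.single i 1)) :=
        Finset.sum_nonneg fun i _ => add_nonneg (hf0 _) (hf0 _)
      have h1 := step hRS (by linarith : 0 ≤ C₁) hdec' hγ.le κ a H hm hHB (by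
        intro v t ht
        have h2 := eqG x a (Function.update (Function.update v a t) x s) t ht (by
          rw [Function.update_of_ne hax, Function.update_self])
        rw [if_neg hax.symm, zero_add] at h2
        calc ‖(t : ℂ) - κ‖ * ‖H a (Function.update v a t)‖ =
              ‖ge w γ ζ (Function.update (Function.update v a t) x s) x a * ((t : ℂ) - κ)‖ := by
              rw [norm_mul, hH, mul_comm]
          _ ≤ _ := by
              rw [h2, hH]
              exact normsum _ _) (by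
        intro v
        refine ⟨1, -Zx w γ ζ a (Function.update v x s), Qx w γ ζ a x (Function.update v x s),
          fun t ht => ⟨?_, ?_⟩⟩
        · rw [one_mul, ← sub_eq_add_neg]
          exact hZ _ _ t
        · rw [hH]
          simp only
          rw [Function.update_comm hax, formG x a _ t ht, one_mul, ← sub_eq_add_neg])
      rw [← hg] at h1
      have h2 : f a ≤ C₁ * g * ∑ i : Fin d, (f (a + Pi.single i 1) + f (a - Pi.single i 1)) := by
        rw [hf]; exact h1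
      refine h2.trans ?_
      apply mul_le_mul_of_nonneg_right _ hS0
      apply mul_le_mul_of_nonneg_right _ hg0.le
      rw [hA]; linarith)
    have hle : ∀ z, f z ≤ f x := by
      intro z
      refine (hdecay z).trans ?_
      have : (2 * d * (A * g)) ^ nd x z ≤ 1 := pow_le_one₀ hcmp0 (by linarith)
      calc f x * (2 * d * (A * g)) ^ nd x z ≤ f x * 1 := mul_le_mul_of_nonneg_left this (hf0 x)
        _ = f x := mul_one _
    have hfx : f x ≤ 2 * K := by
      have h1 := pt (w := w) hγ.le x H hm hHB (L := 2 / (δ * w)) (e := 1) (by positivity)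
        zero_le_one (by
          intro v
          have h2 := eqG x x (Function.update v x s) s hs.le (Function.update_self _ _ _)
          rw [if_pos rfl] at h2
          have h3 : ‖H x v‖ * (δ * w / 2) ≤ 1 + γ * ∑ i : Fin d, (‖H (x + Pi.single i 1) v‖ +
              ‖H (x - Pi.single i 1) v‖) := by
            calc ‖H x v‖ * (δ * w / 2) ≤ ‖H x v‖ * ‖(s : ℂ) - κ‖ :=
                  mul_le_mul_of_nonneg_left (hlow s hs) (norm_nonneg _)
              _ = ‖ge w γ ζ (Function.update v x s) x x * ((s : ℂ) - κ)‖ := by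
                  rw [norm_mul, hH]
              _ ≤ _ := by
                  rw [h2, hH]
                  refine (norm_add_le _ _).trans ?_
                  rw [norm_one]
                  exact add_le_add le_rfl (normsum _ _)
          rw [hinv, one_div_mul_eq_div, le_div_iff₀ hpos2]
          exact h3)
      rw [Real.one_rpow, ← hK, ← hg] at h1
      have h2 : f x ≤ K * (1 + g * ∑ i : Fin d, (f (x + Pi.single i 1) + f (x - Pi.single i 1))) := by
        rw [hf]; exact h1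
      have h3 : ∑ i : Fin d, (f (x + Pi.single i 1) + f (x - Pi.single i 1)) ≤ 2 * d * f x := by
        calc ∑ i : Fin d, (f (x + Pi.single i 1) + f (x - Pi.single i 1)) ≤
              ∑ _i : Fin d, (f x + f x) :=
              Finset.sum_le_sum fun i _ => add_le_add (hle _) (hle _)
          _ = 2 * d * f x := by
              rw [Finset.sum_const, Finset.card_univ, Fintype.card_fin, nsmul_eq_mul]; ring
      have h4 : f x ≤ K + K * (g * (2 * d)) * f x := by
        calc f x ≤ K * (1 + g * ∑ i : Fin d, (f (x + Pi.single i 1) + f (x - Pi.single i 1))) := h2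
          _ ≤ K * (1 + g * (2 * d * f x)) := by gcongr
          _ = _ := by ring
      have h5 : K * (g * (2 * d)) * f x ≤ 1 / 2 * f x :=
        mul_le_mul_of_nonneg_right hKr (hf0 x)
      linarith
    have h2 : f a = ∫ v, ‖ge w γ ζ (Function.update v x s) x a‖ ^ (1 / 2 : ℝ)
        ∂(Pn (unif w) (Fin d → ℤ)) := by rw [hf, hH]
    rw [← h2]
    calc f a ≤ f x * (2 * d * (A * g)) ^ nd x a := hdecay a
      _ ≤ (2 * (d + 1) * A) * (2 * (d + 1) * A * γ ^ (1 / 2 : ℝ)) ^ nd x a := by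
          apply mul_le_mul _ (pow_le_pow_left₀ hcmp0 hcmp _) (by positivity) (by positivity)
          refine hfx.trans ?_
          have : K ≤ A := by rw [hA]; linarith
          nlinarith
  exact ⟨second w (abs_of_pos hw), second (-w) (by rw [abs_neg, abs_of_pos hw])⟩

end Pool.Agent.N491.SD.FM
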